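import Pool.Agent.H40.Stub

open Pool.Agent.H40.Stub in
theorem Pool.Agent.Results.MP_6065fc_lc.CoreNotStubborn.result :
    ∃ (σ : ℕ → Type) (M : Type) (B : Str σ M) (A : Str Bin M),
      Finite (Σ n, σ n) ∧ Countable M ∧ Infinite M ∧ StubbornHom B ∧ Reduct A B ∧
        McCore ratLt ∧ HomEq A ratLt ∧ ¬ Stubborn ratLt ∧ ¬ InterdefEq ratLt :=
  Pool.Agent.H40.Stub.counter
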